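import Mathlib

set_option autoImplicit false

namespace Pool.Agent.Results.MP_bdbea1_co.No

/-- every cycle of length at least four has a chord -/
def Chordal {V : Type} (H : SimpleGraph V) : Prop :=
  ∀ k : ℕ, 4 ≤ k → ∀ f : ZMod k → V, Function.Injective f → (∀ i, H.Adj (f i) (f (i + 1))) →
    ∃ i j, j ≠ i + 1 ∧ i ≠ j + 1 ∧ H.Adj (f i) (f j)

/-- graph of `s`-jets -/
def jet {V : Type} (G : SimpleGraph V) (s : ℕ) : SimpleGraph (V × Fin (s + 1)) where
  Adj x y := G.Adj x.1 y.1 ∧ (x.2 : ℕ) + y.2 ≤ s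
  symm := ⟨fun _ _ h => ⟨h.1.symm, by rw [add_comm]; exact h.2⟩⟩
  loopless := ⟨fun _ h => h.1.ne rfl⟩

theorem result {V : Type} (G : SimpleGraph V) (h : Chordal (jet G 2)ᶜ) (s : ℕ) : Chordal (jet G s)ᶜ := by
  classical
  intro k hk f hf hc
  by_contra hn
  push Not at hn
  haveI : NeZero k := ⟨by omega⟩
  have nz : ∀ c : ℕ, 0 < c → c < 4 → (c : ZMod k) ≠ 0 := fun c a b e =>
    absurd (Nat.le_of_dvd a ((ZMod.natCast_eq_zero_iff c k).1 e)) (by omega)
  have n1 : (1 : ZMod k) ≠ 0 := by simpa using nz 1 (by omega) (by omega)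
  have n2 : (2 : ZMod k) ≠ 0 := by simpa using nz 2 (by omega) (by omega)
  have n3 : (3 : ZMod k) ≠ 0 := by simpa using nz 3 (by omega) (by omega)
  have A : ∀ i j, (jet G s).Adj (f i) (f j) ↔ i ≠ j ∧ j ≠ i + 1 ∧ i ≠ j + 1 := by
    intro i j
    constructor
    · intro e
      refine ⟨fun c => e.ne (by rw [c]), ?_, ?_⟩
      · rintro rfl; exact (hc i).2 e
      · rintro rfl; exact (hc j).2 e.symm
    · rintro ⟨a, b, c⟩
      by_contra e
      exact hn i j b c ⟨fun q => a (hf q), e⟩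
  obtain ⟨p, -, hp⟩ := Finset.exists_max_image Finset.univ (fun i => ((f i).2 : ℕ)) ⟨0, Finset.mem_univ _⟩
  simp only [Finset.mem_univ, true_imp_iff] at hp
  let g : ZMod k → V × Fin 3 := fun i =>
    ((f i).1, if i = p then 2 else if ((f i).2 : ℕ) + (f p).2 ≤ s then 0 else 1)
  have B : ∀ i j, (jet G 2).Adj (g i) (g j) ↔ (jet G s).Adj (f i) (f j) := by
    intro i j
    refine and_congr_right fun e => ?_
    have hij : i ≠ j := by rintro rfl; exact e.ne rfl
    by_cases a : i = p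
    · subst a
      simp only [g, if_pos, if_neg hij.symm]
      split_ifs <;> simp <;> omega
    by_cases b : j = p
    · subst b
      simp only [g, if_pos, if_neg hij]
      split_ifs <;> simp <;> omega
    have : ((f i).2 : ℕ) + (f j).2 ≤ s := by
      by_contra c
      have c0 : ¬ (jet G s).Adj (f i) (f j) := fun q => c q.2
      have c1 : ¬ (jet G s).Adj (f i) (f p) := fun q => by have := q.2; have := hp j; omega
      have c2 : ¬ (jet G s).Adj (f j) (f p) := fun q => by have := q.2; have := hp i; omega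
      rw [A] at c0 c1 c2
      grind
    simp only [g, if_neg a, if_neg b, this, iff_true]
    split_ifs <;> simp
  have inj : Function.Injective g := by
    intro i j e
    by_contra c
    have d : ∀ t, (i ≠ t ∧ t ≠ i + 1 ∧ i ≠ t + 1) ↔ (j ≠ t ∧ t ≠ j + 1 ∧ j ≠ t + 1) := fun t => by
      rw [← A, ← A, ← B, ← B, e]
    have d1 := d j
    have d2 := d (i - 1)
    have d3 := d (i + 1)
    grind
  obtain ⟨i, j, a, b, c⟩ := h k hk g inj fun i => ⟨fun e => (hc i).1 (congrArg f (inj e)), fun e => (hc i).2 ((B _ _).1 e)⟩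
  exact c.2 ((B _ _).2 ((A _ _).2 ⟨fun e => c.1 (congrArg g e), a, b⟩))

end Pool.Agent.Results.MP_bdbea1_co.No
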